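import Mathlib

/-!
Mealy automata and the groups they generate: definitions.
-/

set_option autoImplicit false

namespace Pool.Agent.Q297.MA

/-- A `p`-letter `q`-state Mealy automaton: transition functions `δ i` for the letters `i` and
production functions `ρ x` for the states `x`. -/
structure Mealy (q p : ℕ) where
  δ : Fin p → Fin q → Fin q
  ρ : Fin q → Fin p → Fin p

/-- The action of a state on words: `ρ_x(i w) = ρ_x(i) ρ_{δ_i(x)}(w)`. -/
def Mealy.act {q p : ℕ} (A : Mealy q p) : Fin q → List (Fin p) → List (Fin p)
  | _, [] => []
  | x, i :: w => A.ρ x i :: A.act (A.δ i x) w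

/-- Every production function is a permutation of the letters. -/
def Mealy.Invertible {q p : ℕ} (A : Mealy q p) : Prop := ∀ x, Function.Bijective (A.ρ x)

/-- Every transition function is a permutation of the states. -/
def Mealy.Reversible {q p : ℕ} (A : Mealy q p) : Prop := ∀ i, Function.Bijective (A.δ i)

/-- `A` is invertible and reversible, and for every letter `j` the map
`x ↦ δ_{ρ_x⁻¹(j)}(x)` is a permutation of the states. (Here `s x` is the letter `ρ_x⁻¹(j)`.) -/
def Mealy.Bireversible {q p : ℕ} (A : Mealy q p) : Prop :=
  A.Invertible ∧ A.Reversible ∧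
    ∀ (j : Fin p) (s : Fin q → Fin p), (∀ x, A.ρ x (s x) = j) →
      Function.Bijective (fun x => A.δ (s x) x)

/-- The group generated by `A`: the group of permutations of the set of all words generated by
the permutations which act as the states of `A` do. -/
def Mealy.group {q p : ℕ} (A : Mealy q p) : Subgroup (Equiv.Perm (List (Fin p))) :=
  Subgroup.closure {g | ∃ x : Fin q, ∀ w, g w = A.act x w}

end Pool.Agent.Q297.MA
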