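import Mathlib
import Pool.Agent.Q297.MA.Defs

/-!
A bireversible automaton with 4 letters and 7 states which generates a finite group of order at
least `3 ^ 21`.
-/

set_option autoImplicit false

namespace Pool.Agent.Q297.MA

open Equiv

/-- The output permutations of the states. -/
def r (x : Fin 7) : Perm (Fin 4) := if x = 0 then swap 0 1 else if x = 1 then swap 1 2 else 1

/-- The transition permutations of the letters. -/
def d (i : Fin 4) : Perm (Fin 7) := if i = 3 then swap 0 1 else finRotate 7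

/-- The automaton. -/
def Aut : Mealy 7 4 where
  δ i x := d i x
  ρ x i := r x i

theorem r_three (x : Fin 7) : r x 3 = 3 := by
  revert x; decide

theorem d_congr {π : Perm (Fin 4)} (h : π 3 = 3) (i : Fin 4) : d (π i) = d i := by
  by_cases hi : i = 3
  · rw [hi, h]
  · have : π i ≠ 3 := fun h' => hi (π.injective (h'.trans h.symm))
    simp [d, hi, this]

theorem bireversible : Aut.Bireversible := by
  refine ⟨fun x => (r x).bijective, fun i => (d i).bijective, ?_⟩
  intro j s hs
  have key : ∀ x, d (s x) = d j := fun x => by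
    rw [← hs x]
    exact (d_congr (r_three x) (s x)).symm
  have : (fun x => Aut.δ (s x) x) = d j := by
    funext x
    show d (s x) x = d j x
    rw [key x]
  rw [this]
  exact (d j).bijective

/-- Coordinate functions. -/
abbrev Gam := Perm (Fin 7) → Perm (Fin 4)

/-- The action on words of a coordinate function. -/
def go (Φ : Gam) : Perm (Fin 7) → List (Fin 4) → List (Fin 4)
  | _, [] => []
  | h, i :: w => Φ h i :: go Φ (d i * h) w

/-- The coordinate function of a state. -/
def co (x : Fin 7) : Gam := fun h => r (h x)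

theorem act_eq (x : Fin 7) (w : List (Fin 4)) (h : Perm (Fin 7)) :
    Aut.act (h x) w = go (co x) h w := by
  induction w generalizing h with
  | nil => rfl
  | cons i w ih =>
    show r (h x) i :: Aut.act (d i (h x)) w = co x h i :: go (co x) (d i * h) w
    rw [← ih (d i * h)]
    rfl

/-- Coordinate functions fixing the letter `3`. -/
def CP : Subgroup Gam where
  carrier := {Φ | ∀ h, Φ h 3 = 3}
  mul_mem' := by
    intro a b ha hb h
    show a h (b h 3) = 3
    rw [hb h, ha h]
  one_mem' := fun h => rfl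
  inv_mem' := by
    intro a ha h
    show (a h)⁻¹ 3 = 3
    rw [Perm.inv_eq_iff_eq]
    exact (ha h).symm

theorem go_mul (Φ Ψ : Gam) (hΨ : Ψ ∈ CP) (w : List (Fin 4)) (h : Perm (Fin 7)) :
    go (Φ * Ψ) h w = go Φ h (go Ψ h w) := by
  induction w generalizing h with
  | nil => rfl
  | cons i w ih =>
    show Φ h (Ψ h i) :: go (Φ * Ψ) (d i * h) w =
      Φ h (Ψ h i) :: go Φ (d (Ψ h i) * h) (go Ψ (d i * h) w)
    rw [d_congr (hΨ h) i, ih]

theorem go_one (w : List (Fin 4)) (h : Perm (Fin 7)) : go 1 h w = w := by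
  induction w generalizing h with
  | nil => rfl
  | cons i w ih =>
    show i :: go 1 (d i * h) w = i :: w
    rw [ih]

/-- The homomorphism from coordinate functions to permutations of words. -/
def T : CP →* Perm (List (Fin 4)) where
  toFun Φ :=
    { toFun := go Φ 1
      invFun := go (Φ⁻¹ : CP) 1
      left_inv := fun w => by
        rw [← go_mul _ _ Φ.2]
        have : ((Φ⁻¹ : CP) : Gam) * (Φ : Gam) = 1 := by
          rw [← Subgroup.coe_mul]; simp
        rw [this, go_one]
      right_inv := fun w => by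
        rw [← go_mul _ _ (Φ⁻¹ : CP).2]
        have : (Φ : Gam) * ((Φ⁻¹ : CP) : Gam) = 1 := by
          rw [← Subgroup.coe_mul]; simp
        rw [this, go_one] }
  map_one' := by
    ext1 w
    exact go_one w 1
  map_mul' := fun Φ Ψ => by
    ext1 w
    exact go_mul _ _ Ψ.2 w 1

theorem T_apply (Φ : CP) (w : List (Fin 4)) : T Φ w = go Φ 1 w := rfl

/-- The coordinate function of a state, in `CP`. -/
def coP (x : Fin 7) : CP := ⟨co x, fun h => r_three (h x)⟩

theorem gen_eq (x : Fin 7) (g : Perm (List (Fin 4))) (hg : ∀ w, g w = Aut.act x w) :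
    g = T (coP x) := by
  ext1 w
  rw [hg w, T_apply]
  exact act_eq x w 1

theorem T_coP_mem (x : Fin 7) : T (coP x) ∈ Aut.group := by
  refine Subgroup.subset_closure ⟨x, fun w => ?_⟩
  rw [T_apply]
  exact (act_eq x w 1).symm

theorem group_eq : Aut.group = (Subgroup.closure (Set.range coP)).map T := by
  rw [MonoidHom.map_closure]
  unfold Mealy.group
  congr 1
  ext g
  constructor
  · rintro ⟨x, hx⟩
    exact ⟨coP x, ⟨x, rfl⟩, (gen_eq x g hx).symm⟩
  · rintro ⟨_, ⟨x, rfl⟩, rfl⟩
    exact ⟨x, fun w => (act_eq x w 1).symm⟩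

theorem group_finite : (Aut.group : Set (Perm (List (Fin 4)))).Finite := by
  rw [group_eq]
  exact Set.Finite.subset (Set.finite_range T) (by
    rintro _ ⟨Φ, -, rfl⟩
    exact ⟨Φ, rfl⟩)

/-! ### The coordinates -/

/-- The permutation of the states after a word has been read. -/
def run (u : List (Fin 4)) : Perm (Fin 7) := u.foldl (fun h i => d i * h) 1

theorem go_append (Φ : Gam) (u v : List (Fin 4)) (h : Perm (Fin 7)) :
    go Φ h (u ++ v) = go Φ h u ++ go Φ (u.foldl (fun h i => d i * h) h) v := by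
  induction u generalizing h with
  | nil => rfl
  | cons i u ih =>
    show Φ h i :: go Φ (d i * h) (u ++ v) = _
    rw [ih]
    rfl

theorem go_last (Φ : Gam) (u : List (Fin 4)) (i : Fin 4) :
    (go Φ 1 (u ++ [i])).getLastD 0 = Φ (run u) i := by
  rw [go_append]
  show (_ ++ [Φ (run u) i]).getLastD 0 = _
  simp

/-- Unordered pairs of distinct states. -/
abbrev Pr := {xy : Fin 7 × Fin 7 // xy.1 < xy.2}

/-- A word which moves the states `x < y` to `0` and `1`. -/
def wd (x y : Fin 7) : List (Fin 4) :=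
  List.replicate (7 - x.val) 0 ++
    (List.replicate (y.val - x.val - 1) (3 :: List.replicate 6 (0 : Fin 4))).flatten

/-- A computable version of `run`. -/
def runF (u : List (Fin 4)) (x : Fin 7) : Fin 7 :=
  u.foldl (fun z i => if i = 3 then (if z = 0 then 1 else if z = 1 then 0 else z) else z + 1) x

theorem d_apply (i : Fin 4) (z : Fin 7) :
    d i z = if i = 3 then (if z = 0 then 1 else if z = 1 then 0 else z) else z + 1 := by
  revert i z; decide

theorem foldl_apply (u : List (Fin 4)) (h : Perm (Fin 7)) (x : Fin 7) :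
    (u.foldl (fun h i => d i * h) h) x = runF u (h x) := by
  induction u generalizing h with
  | nil => rfl
  | cons i u ih =>
    show (u.foldl (fun h i => d i * h) (d i * h)) x = _
    rw [ih]
    show runF u (d i (h x)) = runF u _
    rw [d_apply]

theorem run_apply (u : List (Fin 4)) (x : Fin 7) : run u x = runF u x := foldl_apply u 1 x

theorem wd_spec : ∀ x y : Fin 7, x < y → runF (wd x y) x = 0 ∧ runF (wd x y) y = 1 := by
  decide

/-- The coordinate of a pair. -/
def cd (xy : Pr) : Perm (Fin 7) := run (wd xy.1.1 xy.1.2)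

theorem cd_fst (xy : Pr) : cd xy xy.1.1 = 0 := by
  rw [cd, run_apply]; exact (wd_spec _ _ xy.2).1

theorem cd_snd (xy : Pr) : cd xy xy.1.2 = 1 := by
  rw [cd, run_apply]; exact (wd_spec _ _ xy.2).2

/-- The commutator of two elements of a group. -/
def cm {G : Type} [Group G] (a b : G) : G := a * b * a⁻¹ * b⁻¹

/-- The 3-cycle. -/
def sg : Perm (Fin 4) := cm (r 0) (r 1)

theorem r_eq_one {x : Fin 7} (h0 : x ≠ 0) (h1 : x ≠ 1) : r x = 1 := by
  simp [r, h0, h1]

/-- Evaluation at the coordinates of the pairs. -/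
def ev : CP →* (Pr → Perm (Fin 4)) where
  toFun Φ := fun xy => (Φ : Gam) (cd xy)
  map_one' := rfl
  map_mul' := fun _ _ => rfl

theorem ev_comm (xy : Pr) : ev (cm (coP xy.1.1) (coP xy.1.2)) = Pi.mulSingle xy sg := by
  funext z
  show cm (r (cd z xy.1.1)) (r (cd z xy.1.2)) = _
  by_cases hz : z = xy
  · subst hz
    rw [cd_fst, cd_snd, Pi.mulSingle_eq_same]
    rfl
  · rw [Pi.mulSingle_eq_of_ne hz]
    -- one of the two states is not moved to `0` or `1`
    have h0 : ∀ a, cd z a = 0 → a = z.1.1 := fun a ha =>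
      (cd z).injective (ha.trans (cd_fst z).symm)
    have h1 : ∀ a, cd z a = 1 → a = z.1.2 := fun a ha =>
      (cd z).injective (ha.trans (cd_snd z).symm)
    have hor : r (cd z xy.1.1) = 1 ∨ r (cd z xy.1.2) = 1 := by
      by_contra hcon
      push Not at hcon
      have e1 : cd z xy.1.1 = 0 ∨ cd z xy.1.1 = 1 := by
        by_contra h; push Not at h; exact hcon.1 (r_eq_one h.1 h.2)
      have e2 : cd z xy.1.2 = 0 ∨ cd z xy.1.2 = 1 := by
        by_contra h; push Not at h; exact hcon.2 (r_eq_one h.1 h.2)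
      have hlt := xy.2
      have hlt' := z.2
      apply hz
      rcases e1 with e1 | e1 <;> rcases e2 with e2 | e2
      · rw [h0 _ e1, h0 _ e2] at hlt; exact absurd hlt (lt_irrefl _)
      · exact Subtype.ext (Prod.ext (h0 _ e1).symm (h1 _ e2).symm)
      · rw [h1 _ e1, h0 _ e2] at hlt; exact absurd (hlt.trans hlt') (lt_irrefl _)
      · rw [h1 _ e1, h1 _ e2] at hlt; exact absurd hlt (lt_irrefl _)
    rcases hor with h | h <;> rw [h] <;> simp [cm]

theorem sg_inj : ∀ k l : Fin 3, (sg ^ (k : ℕ)) 0 = (sg ^ (l : ℕ)) 0 → k = l := by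
  decide

theorem ev_surj (f : Pr → Fin 3) :
    ∃ Φ ∈ Subgroup.closure (Set.range coP), ∀ xy, (Φ : Gam) (cd xy) = sg ^ (f xy : ℕ) := by
  have hmem : (fun xy => sg ^ (f xy : ℕ)) ∈ (Subgroup.closure (Set.range coP)).map ev := by
    apply Subgroup.pi_mem_of_mulSingle_mem
    intro xy
    have h1 : Pi.mulSingle xy sg ∈ (Subgroup.closure (Set.range coP)).map ev := by
      refine ⟨cm (coP xy.1.1) (coP xy.1.2), ?_, ev_comm xy⟩
      have ha : coP xy.1.1 ∈ Subgroup.closure (Set.range coP) :=
        Subgroup.subset_closure ⟨_, rfl⟩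
      have hb : coP xy.1.2 ∈ Subgroup.closure (Set.range coP) :=
        Subgroup.subset_closure ⟨_, rfl⟩
      exact mul_mem (mul_mem (mul_mem ha hb) (inv_mem ha)) (inv_mem hb)
    have h2 := pow_mem h1 (f xy : ℕ)
    rwa [← Pi.mulSingle_pow] at h2
  obtain ⟨Φ, hΦ, he⟩ := hmem
  exact ⟨Φ, hΦ, fun xy => congrFun he xy⟩

theorem card_group : 3 ^ 21 ≤ Nat.card Aut.group := by
  have hf : ∀ f : Pr → Fin 3, ∃ g : Aut.group, ∀ xy : Pr,
      ((g : Perm (List (Fin 4))) (wd xy.1.1 xy.1.2 ++ [0])).getLastD 0 =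
        (sg ^ (f xy : ℕ)) 0 := by
    intro f
    obtain ⟨Φ, hΦ, he⟩ := ev_surj f
    refine ⟨⟨T Φ, ?_⟩, fun xy => ?_⟩
    · rw [group_eq]
      exact ⟨Φ, hΦ, rfl⟩
    · show (go Φ 1 (wd xy.1.1 xy.1.2 ++ [0])).getLastD 0 = _
      rw [go_last]
      show (Φ : Gam) (cd xy) 0 = _
      rw [he xy]
  choose G hG using hf
  have hinj : Function.Injective G := by
    intro f f' hff
    funext xy
    apply sg_inj
    rw [← hG f xy, ← hG f' xy, hff]
  have hfin : Finite Aut.group := group_finite.to_subtype
  have hcard : Nat.card (Pr → Fin 3) = 3 ^ 21 := by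
    rw [Nat.card_eq_fintype_card, Fintype.card_fun, Fintype.card_fin]
    have : Fintype.card Pr = 21 := by decide
    rw [this]
  rw [← hcard]
  exact Nat.card_le_card_of_injective G hinj

end Pool.Agent.Q297.MA
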